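import Pool.Agent.H81.PB.OddN

/-!
# The parity conjecture over fields in which `p` does not split

Let `g` be a Hilbert modular newform over the totally real field `K` with trivial central character
and even weights, `V = V_{g,λ}`, `p` the residue characteristic of `λ`, `F/K` a totally real Galois
extension with group `G`, and `H ≤ G` any subgroup. `V` over `F^H` is the representation of the base
change of `g` to `F^H`. The form enters by its Hecke eigenvalues `t_v`, `v ∉ S`, with the roots
`α_v, β_v` of `X² - t_v X + q_v`.

`dec K F p ≤ G` is the subgroup generated by the decomposition groups of the primes of `F` above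
`p`; so `p` (if it splits completely in `K`) splits completely in `F^U` if and only if
`dec K F p ≤ U`.

Hypothesis on `L`-functions: for every complex representation `τ` of `G`, the `L`-function
`L_S(g ⊗ τ, s) = exp ∑ (α_v^k + β_v^k) τ(v^k) q_v^{-ks} / k` (centre `s = 1`) has a meromorphic
continuation to `Re s > ρ` for a fixed `ρ < 1` (for solvable `G` this is known by base change).

Selmer groups: `r` is a self-dual representation of `G` on a vector space `R` over a field of
characteristic zero; meant is `R = H¹_f(F, V)`, for which `R^H = H¹_f(F^H, V)`, and which is self-dual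
by the formula of Greenberg and Wiles. `sel r H = dim R^H`. `o H` is the order at the centre of
`L_S(g ⊗ π_H, s)`, `π_H` the permutation character of `G/H`, which is the order of `L(V, s)` over
`F^H`. So `o H ≡ sel r H (mod 2)` is the parity conjecture for the base change of `g` to `F^H`.

`Known`: the parity statement holds for the quadratic twists of the base change of `g` to the fields
`F^U` in which `p` splits completely, that is, over `F^U` and over the quadratic extensions `F^J` of
such fields. This is the theorem quoted in the problem (`p` odd and totally split, `π_v` not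
supercuspidal at the places above `p`, and the condition on `v₀` if a degree is odd).

Results. Suppose `Known`. The parity conjecture holds for the base change of `g` to `F^H`

1. for all subgroups `H` of `G` which contain the squares of the elements of `dec K F p`. For
   example for ALL `H` if the decomposition groups are contained in an elementary abelian normal
   `2`-subgroup: for quartic fields `F^H` with group `S₄` or `A₄` it is enough that `p` splits completely in
   the cubic resolvent, and `p` may then be ramified or have residue degree two in `F^H`;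
2. for all subgroups `H` of odd order, if for some normal subgroup `N` of odd order of `G` the image
   of `dec K F p` in `G/N` is a `2`-group: so for `F` itself and the fields over which `F` has odd degree,
   if `dec K F p` has a normal `2`-complement, for example if it is nilpotent, whatever `G` is. By
   Chebotarev's theorem the density of these `p` is at least `|A|/|G|`, where `A` is the largest normal
   subgroup of `G` which has a normal `2`-complement (`A ≠ 1` if `G ≠ 1` is solvable); the density of
   the `p` which split completely in `F` is `1/|G|`.
3. If `H` is a normal subgroup of odd index in `H'`, the parity statements over `F^H` and `F^H'` are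
   equivalent (here `Known` is not needed).

In 1. and 2. the parity statement over `F^H` is a sum of the known ones: the `H`-invariants are
decomposed under the orbits of `H` on the characters of order two of `dec K F p`.
-/

set_option autoImplicit false

open IsDedekindDomain NumberField Module

namespace Pool.Agent.Results.MP_d4aa36_nt.SquaresOfDecompositionGroups

open Pool.Agent.X298.ST Pool.Agent.X298.EC Pool.Agent.X156.SD Pool.Agent.H81.PB

/-- The parity statements over the subfields in which `p` splits completely and over the quadratic
extensions of these fields. -/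
def Known {K F : Type} [Field K] [NumberField K] [Field F] [NumberField F] [Algebra K F]
    (p : ℕ) (o s : Subgroup (F ≃ₐ[K] F) → ℤ) : Prop :=
  ∀ U : Subgroup (F ≃ₐ[K] F), dec K F p ≤ U → ∀ J ≤ U, J.relIndex U ≤ 2 → Even (o J - s J)

theorem result {K F : Type} [Field K] [NumberField K] [Field F] [NumberField F] [Algebra K F]
    [IsGalois K F] (S : Set (HeightOneSpectrum (𝓞 K))) (P : Places S → Ideal (𝓞 F))
    (_hP : IsAbove P) (t : Places S → ℝ) (α β : Places S → ℂ) (hg : IsNewform t α β)
    (ρ : ℝ) (hρ : ρ < 1)
    (hΛ : ∀ (n : ℕ) (τ : (F ≃ₐ[K] F) →* Matrix (Fin n) (Fin n) ℂ),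
      ∃ Λ, Continues P (tr α β) 1 ρ (fun g => (τ g).trace) Λ)
    {E : Type} [Field E] [CharZero E] {R : Type} [AddCommGroup R] [Module E R]
    [FiniteDimensional E R] (r : (F ≃ₐ[K] F) →* (R →ₗ[E] R)) (hr : SelfDual r) (p : ℕ) :
    ∃ o : Subgroup (F ≃ₐ[K] F) → ℤ,
      (∀ H : Subgroup (F ≃ₐ[K] F), (∃ Λ, Continues P (tr α β) 1 ρ (perm H) Λ) ∧
        ∀ Λ, Continues P (tr α β) 1 ρ (perm H) Λ → meromorphicOrderAt Λ 1 = (o H : WithTop ℤ)) ∧
      -- 1
      (Known p o (fun H => sel r H) → ∀ H : Subgroup (F ≃ₐ[K] F),
        (∀ m ∈ dec K F p, m * m ∈ H) → Even (o H - sel r H)) ∧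
      -- 2
      (Known p o (fun H => sel r H) → ∀ N : Subgroup (F ≃ₐ[K] F), N.Normal →
        Odd (Nat.card N) → (∀ m ∈ dec K F p, ∃ k : ℕ, m ^ 2 ^ k ∈ N) →
          ∀ H : Subgroup (F ≃ₐ[K] F), Odd (Nat.card H) → Even (o H - sel r H)) ∧
      -- 3
      (∀ H H' : Subgroup (F ≃ₐ[K] F), H ≤ H' → (H.subgroupOf H').Normal → Odd (H.relIndex H') →
        (Even (o H - sel r H) ↔ Even (o H' - sel r H'))) := by
  have hfd : FiniteDimensional K F := Module.Finite.of_restrictScalars_finite ℚ K F
  obtain ⟨V, i1, i2, i3, σ, o, hσ, h⟩ := exists_order_gen hρ hg.pure hg.real hΛ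
  have hev : ∀ H, (finrank E (fixS r H) : ZMod 2) = (finrank ℂ (fixS σ H) : ZMod 2) ↔
      Even (o H - sel r H) := by
    intro H
    constructor
    · intro h1
      apply even_of_cast
      rw [Int.cast_sub, (h H).2.2, Int.cast_natCast]
      change _ - (finrank E (fixS r H) : ZMod 2) = 0
      rw [h1, sub_self]
    · intro h1
      have h2 : ((o H - sel r H : ℤ) : ZMod 2) = 0 :=
        (ZMod.intCast_zmod_eq_zero_iff_dvd _ 2).2 h1.two_dvd
      rw [Int.cast_sub, (h H).2.2, Int.cast_natCast, sub_eq_zero] at h2
      exact h2.symm
  have hag : Known p o (fun H => sel r H) → Agree r σ (dec K F p) := by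
    intro hk U J h1 h2 h3
    exact (hev J).2 (hk U h1 J h2 h3)
  refine ⟨o, fun H => ⟨(h H).1, fun Λ hL => ?_⟩, ?_, ?_, ?_⟩
  · have h3 := (h H).2.1 Λ hL
    rwa [Complex.ofReal_one] at h3
  · intro hk H hsq
    exact (hev H).1 (agree_sq (dec K F p) H hsq (hag hk))
  · intro hk N hN hodd h2 H hH
    exact (hev H).1 (agree_odd hr hσ (dec K F p) N H hodd h2 hH (hag hk))
  · intro H H' h1 h2 h3
    rw [← hev, ← hev, odd_normal hr H H' h1 h2 h3, odd_normal hσ H H' h1 h2 h3]

end Pool.Agent.Results.MP_d4aa36_nt.SquaresOfDecompositionGroups
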